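import Pool.Agent.Helper74.NS.Basic

/-!
# Root step: many cells of the last row are not read
-/

namespace Pool.Agent.Helper78.NS

open Finset Pool.Agent.Helper74.NS

variable {N d : ℕ} {A : Type} [AddCommGroup A] {S : ℕ}

open Classical in
/-- change of the content of the cell `(0, val I R v)` by `y` -/
noncomputable def sh [NeZero d] (g : Fin d → Equiv.Perm (Fin N)) (x0 : Fin N → A) (R : ℕ) (v : Fin N)
    (x : (Cell d A → A) × A) : Cell d A → A :=
  x.1 + fun c => if c = (0, val g x0 x.1 R v) then x.2 else 0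

theorem sh_delta [NeZero d] {g : Fin d → Equiv.Perm (Fin N)} {x0 : Fin N → A} {R : ℕ} (v : Fin N)
    (x : (Cell d A → A) × A) [DecidableEq (Cell d A)] :
    ∀ c, (fun c => if c = ((0 : Fin d), val g x0 x.1 R v) then x.2 else 0) c ≠ 0 →
      ∃ s v', c = (s, val g x0 x.1 R v') := by
  intro c hc
  by_cases h : c = (0, val g x0 x.1 R v)
  · exact ⟨0, v, h⟩
  · exact absurd (if_neg h) hc

theorem sh_val [NeZero d] {g : Fin d → Equiv.Perm (Fin N)} {x0 : Fin N → A} {R : ℕ} (v : Fin N)
    (x : (Cell d A → A) × A) (h : CF g x0 R x.1) (w : Fin N) :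
    val g x0 (sh g x0 R v x) R w = val g x0 x.1 R w := by
  classical
  exact val_add h _ (sh_delta v x) R le_rfl w

theorem sh_out [NeZero d] {g : Fin d → Equiv.Perm (Fin N)} {x0 : Fin N → A} {R : ℕ} (v : Fin N)
    (x : (Cell d A → A) × A) (h : CF g x0 R x.1) :
    out g x0 R (sh g x0 R v x) = out g x0 R x.1 + x.2 := by
  classical
  have h1 := out_add h _ (sh_delta v x)
  have h2 : ∑ u, (fun c => if c = ((0 : Fin d), val g x0 x.1 R v) then x.2 else 0) (0, val g x0 x.1 R u)
      = x.2 := by
    rw [Finset.sum_eq_single v]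
    · simp
    · intro u _ hu
      apply if_neg
      intro e
      exact hu (h R R u v le_rfl le_rfl (congrArg Prod.snd e)).2
    · intro hv
      exact absurd (Finset.mem_univ v) hv
  rw [h2] at h1
  unfold sh
  convert h1 using 4

theorem sh_off [NeZero d] {g : Fin d → Equiv.Perm (Fin N)} {x0 : Fin N → A} {R : ℕ} (v : Fin N)
    (x : (Cell d A → A) × A) (c : Cell d A) (hc : c ≠ (0, val g x0 x.1 R v)) :
    sh g x0 R v x c = x.1 c := by
  unfold sh
  rw [Pi.add_apply, if_neg hc, add_zero]

theorem sh_on [NeZero d] {g : Fin d → Equiv.Perm (Fin N)} {x0 : Fin N → A} {R : ℕ} (v : Fin N)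
    (x : (Cell d A → A) × A) :
    sh g x0 R v x (0, val g x0 x.1 R v) = x.1 (0, val g x0 x.1 R v) + x.2 := by
  unfold sh
  rw [Pi.add_apply, if_pos rfl]

/-- counting the pairs (instance, change) -/
theorem fib [Fintype A] [NeZero d] [DecidableEq A] {g : Fin d → Equiv.Perm (Fin N)} {x0 : Fin N → A} {R : ℕ}
    (v : Fin N) (G : Finset ((Cell d A → A) × A)) (hCF : ∀ x ∈ G, CF g x0 R x.1)
    (W : Finset (Cell d A → A)) (hW : ∀ x ∈ G, sh g x0 R v x ∈ W) (q : ℕ)
    (hq : ∀ J, ∃ T : Finset A, T.card ≤ q ∧ ∀ x ∈ G, sh g x0 R v x = J → out g x0 R x.1 ∈ T) :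
    G.card ≤ q * W.card := by
  classical
  apply Finset.card_le_mul_card_image_of_maps_to hW
  intro J _
  obtain ⟨T, hT, hTm⟩ := hq J
  refine le_trans ?_ hT
  apply Finset.card_le_card_of_injOn (fun x => out g x0 R x.1)
  · intro x hx
    rw [Finset.mem_coe, Finset.mem_filter] at hx
    exact hTm x hx.1 hx.2
  · intro x hx y hy hxy
    rw [Finset.mem_coe, Finset.mem_filter] at hx hy
    obtain ⟨hxG, hxJ⟩ := hx
    obtain ⟨hyG, hyJ⟩ := hy
    have hxy' : out g x0 R x.1 = out g x0 R y.1 := hxy
    have e1 := sh_out v x (hCF x hxG)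
    have e2 := sh_out v y (hCF y hyG)
    rw [hxJ] at e1
    rw [hyJ, ← hxy'] at e2
    have e3 : x.2 = y.2 := add_left_cancel (e1.symm.trans e2)
    have e4 : val g x0 x.1 R v = val g x0 y.1 R v := by
      rw [← sh_val v x (hCF x hxG) v, ← sh_val v y (hCF y hyG) v, hxJ, hyJ]
    refine Prod.ext ?_ e3
    funext c
    by_cases hc : c = (0, val g x0 x.1 R v)
    · rw [hc]
      have f1 := sh_on (g := g) (x0 := x0) (R := R) v x
      have f2 := sh_on (g := g) (x0 := x0) (R := R) v y
      rw [hxJ] at f1
      rw [hyJ, ← e4, ← e3] at f2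
      exact add_right_cancel (f1.symm.trans f2)
    · have f1 := sh_off v x c hc
      have f2 := sh_off v y c (by rw [← e4]; exact hc)
      rw [hxJ] at f1
      rw [hyJ] at f2
      exact f1.symm.trans f2

/-- the elements of the last row for which some computation on `I` does not read the first table there -/
noncomputable def miss [NeZero d] (B : NBP (Cell d A) A S) (g : Fin d → Equiv.Perm (Fin N)) (x0 : Fin N → A)
    (R : ℕ) (I : Cell d A → A) (v : Fin N) : Prop :=
  ∃ l b, B.Ends I l b ∧ (0, val g x0 I R v) ∉ l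

open Classical in
theorem card_miss [NeZero d] (B : NBP (Cell d A) A S) (g : Fin d → Equiv.Perm (Fin N)) (x0 : Fin N → A)
    {R a : ℕ} (hN : 8 * a ≤ N) (I : Cell d A → A)
    (h : ∃ l b, B.Ends I l b ∧ (outs g x0 I R l).card < 4 * a) :
    N ≤ 2 * (univ.filter (fun v => miss B g x0 R I v)).card := by
  obtain ⟨l, b, h1, h2⟩ := h
  have h3 : (outs g x0 I R l)ᶜ ⊆ univ.filter (fun v => miss B g x0 R I v) := by
    intro v hv
    rw [Finset.mem_filter]
    refine ⟨Finset.mem_univ _, l, b, h1, ?_⟩
    intro h4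
    rw [Finset.mem_compl] at hv
    apply hv
    unfold outs
    rw [Finset.mem_filter]
    exact ⟨Finset.mem_univ _, 0, h4⟩
  have h4 := Finset.card_le_card h3
  rw [Finset.card_compl, Fintype.card_fin] at h4
  omega

/-- double counting -/
theorem dbl (X : Finset (Cell d A → A)) (M : (Cell d A → A) → Fin N → Prop) [∀ I v, Decidable (M I v)]
    (hM : ∀ I ∈ X, N ≤ 2 * (univ.filter (fun v => M I v)).card) :
    N * X.card ≤ 2 * ∑ v : Fin N, (X.filter (fun I => M I v)).card := by
  have : ∑ v : Fin N, (X.filter (fun I => M I v)).card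
      = ∑ I ∈ X, (univ.filter (fun v => M I v)).card := by
    simp_rw [Finset.card_filter]
    rw [Finset.sum_comm]
  rw [this, Finset.mul_sum, mul_comm, ← smul_eq_mul]
  exact Finset.card_nsmul_le_sum X _ N hM

/-- P5a -/
theorem root_bound [Fintype A] [NeZero d] (B : NBP (Cell d A) A S) (g : Fin d → Equiv.Perm (Fin N)) (x0 : Fin N → A)
    {R a p : ℕ} (hN : 8 * a ≤ N) (hN1 : 1 ≤ N) (φ : A → A) (hφ : ∀ y, Nat.card {x // φ x = y} ≤ p) :
    Nat.card {I : Cell d A → A // CF g x0 R I ∧ (∀ l b, B.Ends I l b → b = φ (out g x0 R I)) ∧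
        ∃ l b, B.Ends I l b ∧ (outs g x0 I R l).card < 4 * a} * Fintype.card A ≤
      2 * p * Nat.card (Cell d A → A) := by
  classical
  rw [Nat.card_eq_fintype_card, Fintype.card_subtype, Nat.card_eq_fintype_card]
  set X : Finset (Cell d A → A) := univ.filter (fun I => CF g x0 R I ∧
    (∀ l b, B.Ends I l b → b = φ (out g x0 R I)) ∧
    ∃ l b, B.Ends I l b ∧ (outs g x0 I R l).card < 4 * a) with hX
  have hXm : ∀ I ∈ X, CF g x0 R I ∧ (∀ l b, B.Ends I l b → b = φ (out g x0 R I)) ∧
    ∃ l b, B.Ends I l b ∧ (outs g x0 I R l).card < 4 * a := fun I hI => (Finset.mem_filter.mp hI).2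
  have h1 : ∀ v : Fin N, (X.filter (fun I => miss B g x0 R I v)).card * Fintype.card A ≤
      p * Fintype.card (Cell d A → A) := by
    intro v
    have h2 := fib (g := g) (x0 := x0) (R := R) v
      ((X.filter (fun I => miss B g x0 R I v)) ×ˢ (univ : Finset A))
      (by
        intro x hx
        exact (hXm _ (Finset.mem_filter.mp (Finset.mem_product.mp hx).1).1).1)
      univ (fun _ _ => Finset.mem_univ _) p
      (by
        intro J
        by_cases hJ : ∃ x ∈ (X.filter (fun I => miss B g x0 R I v)) ×ˢ (univ : Finset A),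
            sh g x0 R v x = J
        · obtain ⟨x, hx, hxJ⟩ := hJ
          have hx1 := Finset.mem_filter.mp (Finset.mem_product.mp hx).1
          obtain ⟨l, b, ⟨t, hr, ht⟩, hl⟩ := hx1.2
          have hxX := hXm _ hx1.1
          refine ⟨univ.filter (fun c => φ c = φ (out g x0 R x.1)), ?_, ?_⟩
          · have := hφ (φ (out g x0 R x.1))
            rw [Nat.card_eq_fintype_card, Fintype.card_subtype] at this
            exact this
          · intro y hy hyJ
            have hy1 := Finset.mem_filter.mp (Finset.mem_product.mp hy).1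
            have hyX := hXm _ hy1.1
            rw [Finset.mem_filter]
            refine ⟨Finset.mem_univ _, ?_⟩
            have e4 : val g x0 x.1 R v = val g x0 y.1 R v := by
              rw [← sh_val v x hxX.1 v, ← sh_val v y hyX.1 v, hxJ, hyJ]
            have hrun : B.Ends y.1 l b := by
              refine ⟨t, run_congr hr ?_, ht⟩
              intro c hc
              have hcne : c ≠ (0, val g x0 x.1 R v) := by
                intro e
                rw [e] at hc
                exact hl hc
              have f1 := sh_off v x c hcne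
              have f2 := sh_off v y c (by rw [← e4]; exact hcne)
              rw [hxJ] at f1
              rw [hyJ] at f2
              exact f1.symm.trans f2
            rw [← hyX.2.1 l b hrun, ← hxX.2.1 l b ⟨t, hr, ht⟩]
        · refine ⟨∅, by simp, ?_⟩
          intro x hx hxJ
          exact absurd ⟨x, hx, hxJ⟩ hJ)
    rw [Finset.card_product, Finset.card_univ, Finset.card_univ] at h2
    exact h2
  have h3 := dbl (N := N) X (fun I v => miss B g x0 R I v)
    (fun I hI => card_miss B g x0 hN I (hXm I hI).2.2)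
  have h4 : (∑ v : Fin N, (X.filter (fun I => miss B g x0 R I v)).card) * Fintype.card A ≤
      N * (p * Fintype.card (Cell d A → A)) := by
    rw [Finset.sum_mul]
    refine (Finset.sum_le_sum (fun v _ => h1 v)).trans ?_
    simp
  have h5 : N * (X.card * Fintype.card A) ≤ N * (2 * p * Fintype.card (Cell d A → A)) := by
    calc N * (X.card * Fintype.card A) = N * X.card * Fintype.card A := by ring
      _ ≤ 2 * (∑ v : Fin N, (X.filter (fun I => miss B g x0 R I v)).card) * Fintype.card A :=
        Nat.mul_le_mul_right _ h3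
      _ = 2 * ((∑ v : Fin N, (X.filter (fun I => miss B g x0 R I v)).card) * Fintype.card A) := by
        ring
      _ ≤ 2 * (N * (p * Fintype.card (Cell d A → A))) := Nat.mul_le_mul_left _ h4
      _ = N * (2 * p * Fintype.card (Cell d A → A)) := by ring
  exact Nat.le_of_mul_le_mul_left h5 hN1

/-- P5b -/
theorem root_bound' [Fintype A] [NeZero d] (B : NBP (Cell d A) A S) (g : Fin d → Equiv.Perm (Fin N)) (x0 : Fin N → A)
    {R a : ℕ} (hN : 8 * a ≤ N) (hN1 : 1 ≤ N) (Y : Finset A) :
    Nat.card {I : Cell d A → A // CF g x0 R I ∧ out g x0 R I ∈ Y ∧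
        ∃ l b, B.Ends I l b ∧ (outs g x0 I R l).card < 4 * a} * (Fintype.card A - Y.card) ≤
      2 * Y.card * Nat.card {I : Cell d A → A // out g x0 R I ∉ Y ∧ ∃ l b, B.Ends I l b} := by
  classical
  rw [Nat.card_eq_fintype_card, Fintype.card_subtype, Nat.card_eq_fintype_card, Fintype.card_subtype]
  set X : Finset (Cell d A → A) := univ.filter (fun I => CF g x0 R I ∧ out g x0 R I ∈ Y ∧
    ∃ l b, B.Ends I l b ∧ (outs g x0 I R l).card < 4 * a) with hX
  set W : Finset (Cell d A → A) := univ.filter (fun I => out g x0 R I ∉ Y ∧ ∃ l b, B.Ends I l b) with hW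
  have hXm : ∀ I ∈ X, CF g x0 R I ∧ out g x0 R I ∈ Y ∧
    ∃ l b, B.Ends I l b ∧ (outs g x0 I R l).card < 4 * a := fun I hI => (Finset.mem_filter.mp hI).2
  have h1 : ∀ v : Fin N, (X.filter (fun I => miss B g x0 R I v)).card * (Fintype.card A - Y.card) ≤
      Y.card * W.card := by
    intro v
    set G : Finset ((Cell d A → A) × A) :=
      ((X.filter (fun I => miss B g x0 R I v)) ×ˢ (univ : Finset A)).filter
        (fun x => out g x0 R x.1 + x.2 ∉ Y) with hG
    have hGm : ∀ x ∈ G, x.1 ∈ X ∧ miss B g x0 R x.1 v ∧ out g x0 R x.1 + x.2 ∉ Y := by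
      intro x hx
      have hx1 := Finset.mem_filter.mp hx
      have hx2 := Finset.mem_filter.mp (Finset.mem_product.mp hx1.1).1
      exact ⟨hx2.1, hx2.2, hx1.2⟩
    have h2 := fib (g := g) (x0 := x0) (R := R) v G
      (fun x hx => (hXm _ (hGm x hx).1).1) W
      (by
        intro x hx
        obtain ⟨hxX, ⟨l, b, ⟨t, hr, ht⟩, hl⟩, hxY⟩ := hGm x hx
        have hCF := (hXm _ hxX).1
        rw [hW, Finset.mem_filter]
        refine ⟨Finset.mem_univ _, ?_, l, b, t, ?_, ht⟩
        · rw [sh_out v x hCF]; exact hxY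
        · apply run_congr hr
          intro c hc
          rw [sh_off]
          intro e
          rw [e] at hc
          exact hl hc) Y.card
      (by
        intro J
        exact ⟨Y, le_rfl, fun x hx _ => (hXm _ (hGm x hx).1).2.1⟩)
    refine le_trans ?_ h2
    have h3 : G.card = ∑ I ∈ X.filter (fun I => miss B g x0 R I v),
        (univ.filter (fun y => out g x0 R I + y ∉ Y)).card := by
      rw [hG, Finset.card_filter, Finset.sum_product]
      refine Finset.sum_congr rfl fun I _ => ?_
      rw [Finset.card_filter]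
    rw [h3, ← smul_eq_mul]
    apply Finset.card_nsmul_le_sum
    intro I _
    have h4 : (univ.filter (fun y => out g x0 R I + y ∉ Y)).card = (univ.filter (fun y => y ∉ Y)).card := by
      apply Finset.card_bij (fun y _ => out g x0 R I + y)
      · intro y hy
        rw [Finset.mem_filter] at hy ⊢
        exact ⟨Finset.mem_univ _, hy.2⟩
      · intro y _ y' _ e
        exact add_left_cancel e
      · intro z hz
        refine ⟨z - out g x0 R I, ?_, by abel⟩
        rw [Finset.mem_filter] at hz ⊢
        refine ⟨Finset.mem_univ _, ?_⟩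
        rw [add_sub_cancel]
        exact hz.2
    rw [h4]
    have h5 : univ.filter (fun y => y ∉ Y) = Yᶜ := by
      ext y; simp
    rw [h5, Finset.card_compl]
  have h3 := dbl (N := N) X (fun I v => miss B g x0 R I v)
    (fun I hI => card_miss B g x0 hN I (hXm I hI).2.2)
  have h4 : (∑ v : Fin N, (X.filter (fun I => miss B g x0 R I v)).card) * (Fintype.card A - Y.card) ≤
      N * (Y.card * W.card) := by
    rw [Finset.sum_mul]
    refine (Finset.sum_le_sum (fun v _ => h1 v)).trans ?_
    simp
  have h5 : N * (X.card * (Fintype.card A - Y.card)) ≤ N * (2 * Y.card * W.card) := by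
    calc N * (X.card * (Fintype.card A - Y.card)) = N * X.card * (Fintype.card A - Y.card) := by ring
      _ ≤ 2 * (∑ v : Fin N, (X.filter (fun I => miss B g x0 R I v)).card) * (Fintype.card A - Y.card) :=
        Nat.mul_le_mul_right _ h3
      _ = 2 * ((∑ v : Fin N, (X.filter (fun I => miss B g x0 R I v)).card) * (Fintype.card A - Y.card)) := by
        ring
      _ ≤ 2 * (N * (Y.card * W.card)) := Nat.mul_le_mul_left _ h4
      _ = N * (2 * Y.card * W.card) := by ring
  exact Nat.le_of_mul_le_mul_left h5 hN1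

end Pool.Agent.Helper78.NS
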