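import Pool.Agent.Helper78.NS.Dec
import Pool.Agent.Helper60.NS.Cf
import Pool.Agent.Helper1.NS.Long
import Pool.Agent.Helper74.NS.Class
import Pool.Agent.Helper66.NS.P4

/-!
# Decision version, final form
-/

namespace Pool.Agent.Helper78.NS

open Pool.Agent.Helper74.NS

variable {N d : ℕ} {A : Type} [AddCommGroup A] {S : ℕ}

/-- P4b -/
theorem good_bound [Fintype A] (B : NBP (Cell d A) A S) (g : Fin d → Equiv.Perm (Fin N)) (x0 : Fin N → A)
    {R T a : ℕ} (ha : 1 ≤ a) (hE : Expands g a) :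
    Nat.card {I : Cell d A → A // CF g x0 R I ∧ ∃ l t, Best B g x0 R I B.start l t ∧ Nat.card {c // c ∈ l} ≤ T ∧
        4 * a ≤ (outs g x0 I R l).card ∧ l.length ≤ 2 ^ R} * Fintype.card A ^ a ≤
      R * N.choose a * d ^ a * S ^ 2 * T ^ a * Nat.card (Cell d A → A) :=
  Pool.Agent.Helper66.NS.good_bound_of B g x0 ha
    (fun _ hI l => Pool.Agent.Helper1.NS.long hE hI l)
    (fun _ hi u hu r s t I hI => Pool.Agent.Helper74.NS.class_bound B g x0 hi u hu r s t I hI)

/-- P8b -/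
theorem decision_bound [Fintype A] [NeZero d] (B : NBP (Cell d A) A S) (g : Fin d → Equiv.Perm (Fin N)) (x0 : Fin N → A)
    (h0 : Function.Injective x0) {R T a : ℕ} (ha : 1 ≤ a) (hN : 8 * a ≤ N) (hE : Expands g a) (Y : Finset A) (y : ℝ)
    (hy : y = Y.card / Fintype.card A) :
    (min y ((1 - y) / 2) - ((R + 1) * N) ^ 2 / Fintype.card A -
        R * N.choose a * (S : ℝ) ^ 2 * (d * T / Fintype.card A) ^ a) * Nat.card (Cell d A → A) ≤
      Nat.card {I : Cell d A → A // ¬ (((∃ l b, B.Ends I l b) ↔ out g x0 R I ∈ Y) ∧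
        ∀ l b, B.Shortest I l b → Nat.card {c // c ∈ l} ≤ T ∧ min S l.length ≤ 2 ^ R)} :=
  decision_bound_of B g x0 ha hN Y y hy (Pool.Agent.Helper60.NSF.card_not_CF g x0 h0 R)
    (good_bound B g x0 ha hE)

end Pool.Agent.Helper78.NS
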