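import Pool.Agent.Helper78.NS.PushBound
import Pool.Agent.Helper74.NS.Main
import Pool.Agent.Helper1.NS.Sim

/-!
# Bounds for nondeterministic pushdown programs (from main_bound, decision_bound and the simulation)
-/

namespace Pool.Agent.Helper78.NS

open Pool.Agent.Helper74.NS

variable {N d : ℕ} {A : Type} [AddCommGroup A] {Q Γ : Type}

theorem two_pow_lt {m R : ℕ} (h : m < R) : 2 ^ m + 1 ≤ 2 ^ R := by
  have h1 : 2 ^ (m + 1) ≤ 2 ^ R := Nat.pow_le_pow_right (by norm_num) h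
  have h2 : 1 ≤ 2 ^ m := Nat.one_le_two_pow
  rw [pow_succ] at h1
  omega

/-- Q3a -/
theorem push_main_bound [Fintype A] [NeZero d] [Fintype Q] (P : NPBP (Cell d A) A Q Γ)
    (g : Fin d → Equiv.Perm (Fin N)) (x0 : Fin N → A)
    (h0 : Function.Injective x0) {R T a p m : ℕ} (ha : 1 ≤ a) (hN : 8 * a ≤ N) (hE : Expands g a) (φ : A → A)
    (hφ : ∀ y, Nat.card {x // φ x = y} ≤ p) (hm : m < R) :
    (Nat.card {I : Cell d A → A // (∃ l n b, P.Ends I l n b ∧ n ≤ 2 ^ m) ∧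
      ∀ l n b, P.Ends I l n b → b = φ (out g x0 R I) ∧ Nat.card {c // c ∈ l} ≤ T} : ℝ) ≤
      ((2 * p + ((R + 1) * N) ^ 2) / Fintype.card A +
        R * N.choose a * (((2 * Fintype.card Q ^ 2 + 2) ^ (m + 2) : ℕ) : ℝ) ^ 2 *
          (d * (T + 1 : ℕ) / Fintype.card A) ^ a) * Nat.card (Cell d A → A) := by
  obtain ⟨S, hS, B, hB⟩ := Pool.Agent.Helper1.NS.sim P (0 : Cell d A) m
  refine push_main_of P g x0 φ (0 : Cell d A) B hB (two_pow_lt hm) _ ?_
  refine (Pool.Agent.Helper74.NS.main_bound B g x0 h0 (R := R) (T := T + 1) ha hN hE φ hφ).trans ?_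
  gcongr

/-- Q3b -/
theorem push_decision_bound [Fintype A] [NeZero d] [Fintype Q] (P : NPBP (Cell d A) A Q Γ)
    (g : Fin d → Equiv.Perm (Fin N)) (x0 : Fin N → A)
    (h0 : Function.Injective x0) {R T a m : ℕ} (ha : 1 ≤ a) (hN : 8 * a ≤ N) (hE : Expands g a) (Y : Finset A) (y : ℝ)
    (hy : y = Y.card / Fintype.card A) (hm : m < R) :
    (min y ((1 - y) / 2) - ((R + 1) * N) ^ 2 / Fintype.card A -
        R * N.choose a * (((2 * Fintype.card Q ^ 2 + 2) ^ (m + 2) : ℕ) : ℝ) ^ 2 *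
          (d * (T + 1 : ℕ) / Fintype.card A) ^ a) * Nat.card (Cell d A → A) ≤
      Nat.card {I : Cell d A → A // ¬ ((out g x0 R I ∈ Y → ∃ l n b, P.Ends I l n b ∧ n ≤ 2 ^ m) ∧
        ∀ l n b, P.Ends I l n b → out g x0 R I ∈ Y ∧ Nat.card {c // c ∈ l} ≤ T)} := by
  obtain ⟨S, hS, B, hB⟩ := Pool.Agent.Helper1.NS.sim P (0 : Cell d A) m
  refine push_dec_of P g x0 Y (0 : Cell d A) B hB (two_pow_lt hm) _ ?_
  refine le_trans ?_ (decision_bound B g x0 h0 (R := R) (T := T + 1) ha hN hE Y y hy)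
  gcongr

end Pool.Agent.Helper78.NS
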