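import Pool.Agent.Helper78.NS.Root

/-! Collisions in the network problem with shared tables (MP_4e849b_lc). -/

namespace Pool.Agent.Helper78.NS

open Finset

variable {A : Type} [AddCommGroup A] [Fintype A] [DecidableEq A] {d N : ℕ}

/-- one value on the next level: only the value of `u` moves, and it moves by the change -/
theorem val_upd_top (g : Fin d → Equiv.Perm (Fin N)) (x0 : Fin N → A)
    (I : Fin d × A → A) (m : ℕ) (s0 : Fin d) (u : Fin N) (c : A)
    (hCF : CF g x0 I m) (w : Fin N) :
    val g x0 (Function.update I (s0, val g x0 I m (g s0 u)) c) (m + 1) w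
      = val g x0 I (m + 1) w + (if w = u then c - I (s0, val g x0 I m (g s0 u)) else 0) := by
  have hlow := val_upd_low g x0 I m s0 (g s0 u) c (hCF.low _) m le_rfl
  rw [val_succ, hlow, val_succ]
  by_cases hw : w = u
  · subst hw
    rw [if_pos rfl, ← Finset.add_sum_erase univ _ (Finset.mem_univ s0),
      ← Finset.add_sum_erase univ (fun s => I (s, val g x0 I m (g s w))) (Finset.mem_univ s0)]
    rw [Function.update_self]
    have : ∑ s ∈ univ.erase s0, (Function.update I (s0, val g x0 I m (g s0 w)) c)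
          (s, val g x0 I m (g s w))
        = ∑ s ∈ univ.erase s0, I (s, val g x0 I m (g s w)) := by
      apply Finset.sum_congr rfl
      intro s hs
      rw [Function.update_of_ne]
      intro h
      exact (Finset.ne_of_mem_erase hs) (congrArg Prod.fst h)
    rw [this]
    abel
  · rw [if_neg hw, add_zero]
    apply Finset.sum_congr rfl
    intro s _
    rw [Function.update_of_ne]
    intro h
    have h1 : s = s0 := congrArg Prod.fst h
    have h2 := hCF.inj (congrArg Prod.snd h)
    rw [h1] at h2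
    exact hw ((g s0).injective h2)

/-- a fixed pair of nodes collides with probability at most `1/k` -/
theorem pair_coll (g : Fin d → Equiv.Perm (Fin N)) (x0 : Fin N → A) (m : ℕ)
    (s0 : Fin d) (u : Fin N) (j : ℕ) (v : Fin N) (hj : j ≤ m ∨ (j = m + 1 ∧ v ≠ u))
    (B : Finset (Fin d × A → A)) (hCF : ∀ I ∈ B, CF g x0 I m)
    (hB : ∀ I ∈ B, val g x0 I (m + 1) u = val g x0 I j v) :
    Fintype.card A * B.card ≤ Fintype.card (Fin d × A → A) := by
  classical
  have hinj : Set.InjOn (fun x : (Fin d × A → A) × A =>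
      Function.update x.1 (s0, val g x0 x.1 m (g s0 u)) x.2)
      (↑(B ×ˢ (univ : Finset A)) : Set ((Fin d × A → A) × A)) := by
    intro x hx y hy hxy
    rw [Finset.mem_coe, Finset.mem_product] at hx hy
    have hxB := hx.1
    have hyB := hy.1
    obtain ⟨J, hJ⟩ : ∃ J, J = Function.update x.1 (s0, val g x0 x.1 m (g s0 u)) x.2 := ⟨_, rfl⟩
    have hJx : J = Function.update x.1 (s0, val g x0 x.1 m (g s0 u)) x.2 := hJ
    have hJy : J = Function.update y.1 (s0, val g x0 y.1 m (g s0 u)) y.2 := by
      rw [hJ]; exact hxy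
    have fact : ∀ z : (Fin d × A → A) × A, z.1 ∈ B →
        J = Function.update z.1 (s0, val g x0 z.1 m (g s0 u)) z.2 →
        (∀ i, i ≤ m → val g x0 J i = val g x0 z.1 i) ∧ z.2 = J (s0, val g x0 J m (g s0 u)) ∧
        z.1 (s0, val g x0 J m (g s0 u)) = val g x0 J j v - val g x0 J (m + 1) u
          + J (s0, val g x0 J m (g s0 u)) := by
      intro z hz hJz
      have hl : ∀ i, i ≤ m → val g x0 J i = val g x0 z.1 i := by
        intro i hi
        rw [hJz]
        exact val_upd_low g x0 z.1 m s0 (g s0 u) z.2 ((hCF _ hz).low _) i hi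
      have h2 : z.2 = J (s0, val g x0 J m (g s0 u)) := by
        rw [hl m le_rfl, hJz, Function.update_self]
      refine ⟨hl, h2, ?_⟩
      have ht := val_upd_top g x0 z.1 m s0 u z.2 (hCF _ hz)
      rw [← hJz] at ht
      have htu := ht u
      rw [if_pos rfl] at htu
      have hjv : val g x0 J j v = val g x0 z.1 j v := by
        rcases hj with hj | ⟨hj, hvu⟩
        · rw [hl j hj]
        · rw [hj, ht v, if_neg hvu, add_zero]
      have hb := hB z.1 hz
      rw [htu, hjv, hb, ← h2, hl m le_rfl]
      abel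
    obtain ⟨hxl, hxc, hxI⟩ := fact x hxB hJx
    obtain ⟨hyl, hyc, hyI⟩ := fact y hyB hJy
    refine Prod.ext ?_ ?_
    · funext c
      by_cases hc : c = (s0, val g x0 J m (g s0 u))
      · rw [hc, hxI, hyI]
      · have e1 : x.1 c = J c := by
          rw [hJx, Function.update_of_ne]
          rw [← hxl m le_rfl]; exact hc
        have e2 : y.1 c = J c := by
          rw [hJy, Function.update_of_ne]
          rw [← hyl m le_rfl]; exact hc
        rw [e1, e2]
    · rw [hxc, hyc]
  have h1 := Finset.card_image_of_injOn hinj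
  rw [Finset.card_product, Finset.card_univ] at h1
  rw [mul_comm, ← h1]
  exact Finset.card_le_univ _

/-- the instances with a collision -/
theorem coll_card (g : Fin d → Equiv.Perm (Fin N)) (x0 : Fin N → A)
    (hx0 : Function.Injective x0) (s0 : Fin d) (m : ℕ)
    (B : Finset (Fin d × A → A)) (hB : ∀ I ∈ B, ¬ CF g x0 I m) :
    Fintype.card A * B.card ≤ ((m + 1) * N) ^ 2 * Fintype.card (Fin d × A → A) := by
  classical
  -- a bad pair on the first bad level
  have hbad : ∀ I ∈ B, ∃ a : (Fin (m + 1) × Fin N) × (Fin (m + 1) × Fin N),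
      (∃ i, (a.1.1 : ℕ) = i + 1 ∧ CF g x0 I i ∧
        ((a.2.1 : ℕ) ≤ i ∨ ((a.2.1 : ℕ) = i + 1 ∧ a.2.2 ≠ a.1.2)) ∧
        val g x0 I (i + 1) a.1.2 = val g x0 I (a.2.1 : ℕ) a.2.2) := by
    intro I hI
    have hex : ∃ m', ¬ CF g x0 I m' := ⟨m, hB I hI⟩
    obtain ⟨n, hn, hmin⟩ : ∃ n, ¬ CF g x0 I n ∧ ∀ i, i < n → CF g x0 I i := by
      refine ⟨Nat.find hex, Nat.find_spec hex, ?_⟩
      intro i hi
      have := Nat.find_min hex hi
      push Not at this
      exact this
    have hnm : n ≤ m := by
      by_contra hlt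
      exact hB I hI (hmin m (by omega))
    rcases n with _ | n
    · exfalso
      apply hn
      intro i hi j hj u v e
      have hi0 : i = 0 := by omega
      have hj0 : j = 0 := by omega
      subst hi0 hj0
      exact ⟨rfl, hx0 e⟩
    · have hcf := hmin n (by omega)
      have : ∃ i ≤ n + 1, ∃ j ≤ n + 1, ∃ u v, val g x0 I i u = val g x0 I j v ∧
          ¬ (i = j ∧ u = v) := by
        by_contra hno
        push Not at hno
        apply hn
        intro i hi j hj u v e
        have := hno i hi j hj u v e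
        exact this
      obtain ⟨i, hi, j, hj, u, v, e, hne⟩ := this
      have key : ∀ (i : ℕ) (_ : i ≤ n + 1) (j : ℕ) (_ : j ≤ n + 1) (u v : Fin N),
          val g x0 I i u = val g x0 I j v → ¬ (i = j ∧ u = v) → i = n + 1 →
          ∃ a : (Fin (m + 1) × Fin N) × (Fin (m + 1) × Fin N),
          (∃ i, (a.1.1 : ℕ) = i + 1 ∧ CF g x0 I i ∧
            ((a.2.1 : ℕ) ≤ i ∨ ((a.2.1 : ℕ) = i + 1 ∧ a.2.2 ≠ a.1.2)) ∧
            val g x0 I (i + 1) a.1.2 = val g x0 I (a.2.1 : ℕ) a.2.2) := by
        intro i hi j hj u v e hne hin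
        subst hin
        refine ⟨((⟨n + 1, by omega⟩, u), (⟨j, by omega⟩, v)), n, rfl, hcf, ?_, e⟩
        by_cases hjn : j ≤ n
        · exact Or.inl hjn
        · right
          have hj' : j = n + 1 := by omega
          refine ⟨hj', ?_⟩
          intro hvu
          exact hne ⟨hj'.symm, hvu.symm⟩
      by_cases hin : i = n + 1
      · exact key i hi j hj u v e hne hin
      · by_cases hjn : j = n + 1
        · exact key j hj i hi v u e.symm (fun h => hne ⟨h.1.symm, h.2.symm⟩) hjn
        · exact absurd (hcf i (by omega) j (by omega) u v e) hne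
  let P : (Fin (m + 1) × Fin N) × (Fin (m + 1) × Fin N) → (Fin d × A → A) → Prop :=
    fun a I => (∃ i, (a.1.1 : ℕ) = i + 1 ∧ CF g x0 I i ∧
        ((a.2.1 : ℕ) ≤ i ∨ ((a.2.1 : ℕ) = i + 1 ∧ a.2.2 ≠ a.1.2)) ∧
        val g x0 I (i + 1) a.1.2 = val g x0 I (a.2.1 : ℕ) a.2.2)
  have hsub : B ⊆ (univ : Finset ((Fin (m + 1) × Fin N) × (Fin (m + 1) × Fin N))).biUnion
      (fun a => B.filter (fun I => P a I)) := by
    intro I hI
    obtain ⟨a, ha⟩ := hbad I hI
    exact Finset.mem_biUnion.mpr ⟨a, Finset.mem_univ _, Finset.mem_filter.mpr ⟨hI, ha⟩⟩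
  have hone : ∀ a : (Fin (m + 1) × Fin N) × (Fin (m + 1) × Fin N),
      Fintype.card A * (B.filter (fun I => P a I)).card ≤ Fintype.card (Fin d × A → A) := by
    intro a
    rcases (B.filter (fun I => P a I)).eq_empty_or_nonempty with he | ⟨I0, hI0⟩
    · rw [he]; simp
    · obtain ⟨i, hi, _, hj, _⟩ := (Finset.mem_filter.mp hI0).2
      apply pair_coll g x0 i s0 a.1.2 (a.2.1 : ℕ) a.2.2 hj
      · intro I hI
        obtain ⟨i', hi', hc, _⟩ := (Finset.mem_filter.mp hI).2
        have : i' = i := by omega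
        rw [← this]; exact hc
      · intro I hI
        obtain ⟨i', hi', _, _, hv⟩ := (Finset.mem_filter.mp hI).2
        have : i' = i := by omega
        rw [← this]; exact hv
  calc Fintype.card A * B.card
      ≤ Fintype.card A * ∑ a : (Fin (m + 1) × Fin N) × (Fin (m + 1) × Fin N),
          (B.filter (fun I => P a I)).card :=
        Nat.mul_le_mul_left _ ((Finset.card_le_card hsub).trans Finset.card_biUnion_le)
    _ = ∑ a : (Fin (m + 1) × Fin N) × (Fin (m + 1) × Fin N),
          Fintype.card A * (B.filter (fun I => P a I)).card := Finset.mul_sum _ _ _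
    _ ≤ ∑ _a : (Fin (m + 1) × Fin N) × (Fin (m + 1) × Fin N),
          Fintype.card (Fin d × A → A) := Finset.sum_le_sum (fun a _ => hone a)
    _ = ((m + 1) * N) ^ 2 * Fintype.card (Fin d × A → A) := by
        rw [Finset.sum_const, Finset.card_univ, Fintype.card_prod, Fintype.card_prod,
          Fintype.card_fin, Fintype.card_fin, smul_eq_mul, sq]

end Pool.Agent.Helper78.NS
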