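import Pool.Agent.Helper78.NS.RootB

/-!
# Decision version
-/

namespace Pool.Agent.Helper78.NS

open Finset Pool.Agent.Helper74.NS

variable {N d : ℕ} {A : Type} [AddCommGroup A] {S : ℕ}

theorem nc {α : Type} [Fintype α] (P : α → Prop) [DecidablePred P] :
    Nat.card {x // P x} = (univ.filter P).card := by
  rw [Nat.card_eq_fintype_card, Fintype.card_subtype]

/-- in the instances without collisions the result is equidistributed -/
theorem equi [Fintype A] [NeZero d] (g : Fin d → Equiv.Perm (Fin N)) (x0 : Fin N → A)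
    (R : ℕ) (hN1 : 1 ≤ N) (Y : Finset A) :
    Nat.card {I : Cell d A → A // CF g x0 R I} * Y.card ≤
      Fintype.card A * Nat.card {I : Cell d A → A // CF g x0 R I ∧ out g x0 R I ∈ Y} := by
  classical
  rw [Nat.card_eq_fintype_card, Fintype.card_subtype, Nat.card_eq_fintype_card, Fintype.card_subtype]
  set X : Finset (Cell d A → A) := univ.filter (fun I => CF g x0 R I) with hX
  set G : Finset ((Cell d A → A) × A) := (X ×ˢ (univ : Finset A)).filter
    (fun x => out g x0 R x.1 + x.2 ∈ Y) with hG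
  have hGm : ∀ x ∈ G, CF g x0 R x.1 ∧ out g x0 R x.1 + x.2 ∈ Y := by
    intro x hx
    have hx1 := Finset.mem_filter.mp hx
    exact ⟨(Finset.mem_filter.mp (Finset.mem_product.mp hx1.1).1).2, hx1.2⟩
  have h2 := fib (g := g) (x0 := x0) (R := R) (⟨0, hN1⟩ : Fin N) G
    (fun x hx => (hGm x hx).1) (univ.filter (fun I => CF g x0 R I ∧ out g x0 R I ∈ Y))
    (by
      intro x hx
      rw [Finset.mem_filter]
      refine ⟨Finset.mem_univ _, ?_, ?_⟩
      · unfold sh
        exact CF_add (hGm x hx).1 _ (sh_delta _ x)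
      · rw [sh_out _ x (hGm x hx).1]
        exact (hGm x hx).2) (Fintype.card A)
    (fun J => ⟨univ, by rw [Finset.card_univ], fun x _ _ => Finset.mem_univ _⟩)
  refine le_trans ?_ h2
  have h3 : G.card = ∑ I ∈ X, (univ.filter (fun y => out g x0 R I + y ∈ Y)).card := by
    rw [hG, Finset.card_filter, Finset.sum_product]
    refine Finset.sum_congr rfl fun I _ => ?_
    rw [Finset.card_filter]
  rw [h3, ← smul_eq_mul]
  apply Finset.card_nsmul_le_sum
  intro I _
  apply Finset.card_le_card_of_injOn (fun y => y - out g x0 R I)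
  · intro y hy
    rw [Finset.mem_coe, Finset.mem_filter]
    refine ⟨Finset.mem_univ _, ?_⟩
    show out g x0 R I + (y - out g x0 R I) ∈ Y
    rw [add_sub_cancel]
    exact hy
  · intro y _ y' _ e
    exact sub_left_injective e

/-- the counting behind the decision version -/
theorem decision_nat [Fintype A] [NeZero d] (B : NBP (Cell d A) A S) (g : Fin d → Equiv.Perm (Fin N)) (x0 : Fin N → A)
    {R T a : ℕ} (Y : Finset A) :
    Nat.card {I : Cell d A → A // CF g x0 R I ∧ out g x0 R I ∈ Y} +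
      Nat.card {I : Cell d A → A // out g x0 R I ∉ Y ∧ ∃ l b, B.Ends I l b} ≤
      Nat.card {I : Cell d A → A // ¬ (((∃ l b, B.Ends I l b) ↔ out g x0 R I ∈ Y) ∧
        ∀ l b, B.Shortest I l b → Nat.card {c // c ∈ l} ≤ T ∧ min S l.length ≤ 2 ^ R)} +
      Nat.card {I : Cell d A → A // CF g x0 R I ∧ ∃ l t, Best B g x0 R I B.start l t ∧
        Nat.card {c // c ∈ l} ≤ T ∧ 4 * a ≤ (outs g x0 I R l).card ∧ l.length ≤ 2 ^ R} +
      Nat.card {I : Cell d A → A // CF g x0 R I ∧ out g x0 R I ∈ Y ∧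
        ∃ l b, B.Ends I l b ∧ (outs g x0 I R l).card < 4 * a} := by
  classical
  rw [nc, nc, nc, nc, nc]
  set P : Finset (Cell d A → A) := univ.filter (fun I => CF g x0 R I ∧ out g x0 R I ∈ Y) with hP
  set W : Finset (Cell d A → A) := univ.filter (fun I => out g x0 R I ∉ Y ∧ ∃ l b, B.Ends I l b) with hW
  set Er : Finset (Cell d A → A) := univ.filter (fun I => ¬ (((∃ l b, B.Ends I l b) ↔ out g x0 R I ∈ Y) ∧
        ∀ l b, B.Shortest I l b → Nat.card {c // c ∈ l} ≤ T ∧ min S l.length ≤ 2 ^ R)) with hEr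
  set Gd : Finset (Cell d A → A) := univ.filter (fun I => CF g x0 R I ∧ ∃ l t, Best B g x0 R I B.start l t ∧
        Nat.card {c // c ∈ l} ≤ T ∧ 4 * a ≤ (outs g x0 I R l).card ∧ l.length ≤ 2 ^ R) with hGd
  set Rt : Finset (Cell d A → A) := univ.filter (fun I => CF g x0 R I ∧ out g x0 R I ∈ Y ∧
        ∃ l b, B.Ends I l b ∧ (outs g x0 I R l).card < 4 * a) with hRt
  have hsub : P ∪ W ⊆ (Er ∪ Gd) ∪ Rt := by
    intro I hI
    rw [Finset.mem_union] at hI
    by_cases hE : I ∈ Er
    · exact Finset.mem_union_left _ (Finset.mem_union_left _ hE)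
    have hgood : ((∃ l b, B.Ends I l b) ↔ out g x0 R I ∈ Y) ∧
        ∀ l b, B.Shortest I l b → Nat.card {c // c ∈ l} ≤ T ∧ min S l.length ≤ 2 ^ R := by
      by_contra h
      exact hE (Finset.mem_filter.mpr ⟨Finset.mem_univ _, h⟩)
    rcases hI with hI | hI
    · obtain ⟨hCF, hout⟩ := (Finset.mem_filter.mp hI).2
      obtain ⟨l₀, b₀, h0⟩ := hgood.1.mpr hout
      obtain ⟨l, b, t, hb, ht, hs⟩ := exists_best g x0 R h0
      obtain ⟨hT, hm⟩ := hgood.2 l b hs
      have hlen : l.length ≤ 2 ^ R := by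
        have := shortest_lt hs
        omega
      by_cases h4 : 4 * a ≤ (outs g x0 I R l).card
      · exact Finset.mem_union_left _ (Finset.mem_union_right _ (Finset.mem_filter.mpr
          ⟨Finset.mem_univ _, hCF, l, t, hb, hT, h4, hlen⟩))
      · exact Finset.mem_union_right _ (Finset.mem_filter.mpr
          ⟨Finset.mem_univ _, hCF, hout, l, b, hs.1, not_le.mp h4⟩)
    · obtain ⟨hout, hE'⟩ := (Finset.mem_filter.mp hI).2
      exact absurd (hgood.1.mp hE') hout
  have hdis : Disjoint P W := by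
    rw [Finset.disjoint_left]
    intro I hI hI'
    exact (Finset.mem_filter.mp hI').2.1 (Finset.mem_filter.mp hI).2.2
  calc P.card + W.card = (P ∪ W).card := (Finset.card_union_of_disjoint hdis).symm
    _ ≤ ((Er ∪ Gd) ∪ Rt).card := Finset.card_le_card hsub
    _ ≤ (Er ∪ Gd).card + Rt.card := Finset.card_union_le _ _
    _ ≤ Er.card + Gd.card + Rt.card := Nat.add_le_add_right (Finset.card_union_le _ _) _

theorem wrong_le [Fintype A] [NeZero d] (B : NBP (Cell d A) A S) (g : Fin d → Equiv.Perm (Fin N)) (x0 : Fin N → A)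
    {R T : ℕ} (Y : Finset A) :
    Nat.card {I : Cell d A → A // out g x0 R I ∉ Y ∧ ∃ l b, B.Ends I l b} ≤
      Nat.card {I : Cell d A → A // ¬ (((∃ l b, B.Ends I l b) ↔ out g x0 R I ∈ Y) ∧
        ∀ l b, B.Shortest I l b → Nat.card {c // c ∈ l} ≤ T ∧ min S l.length ≤ 2 ^ R)} := by
  classical
  rw [nc, nc]
  apply Finset.card_le_card
  intro I hI
  rw [Finset.mem_filter] at hI ⊢
  refine ⟨Finset.mem_univ _, fun h => hI.2.1 (h.1.mp hI.2.2)⟩

/-- the real inequality -/
theorem dec_real (y E P W Er Gd Rt M0 Co V2 : ℝ) (hy0 : 0 ≤ y) (hy1 : y ≤ 1) (hM : 0 ≤ M0)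
    (h1 : P + W ≤ Er + Gd + Rt) (h2 : Rt * (1 - y) ≤ 2 * y * W) (h3 : W ≤ Er) (h4 : Gd ≤ E * M0)
    (hE : 0 ≤ E) (hV : 0 ≤ V2) (h5 : Co * y ≤ P) (h6 : M0 - V2 * M0 ≤ Co) (hW : 0 ≤ W) :
    (min y ((1 - y) / 2) - V2 - E) * M0 ≤ Er := by
  have hEr : 0 ≤ Er := hW.trans h3
  have hP : y * M0 - V2 * M0 ≤ P := by
    have e1 : y * (M0 - V2 * M0) ≤ y * Co := mul_le_mul_of_nonneg_left h6 hy0
    have e2 : y * (V2 * M0) ≤ 1 * (V2 * M0) := mul_le_mul_of_nonneg_right hy1 (mul_nonneg hV hM)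
    nlinarith
  rcases le_or_gt (2 * y) (1 - y) with hc | hc
  · have hpos : 0 < 1 - y := by linarith
    have hRW : Rt ≤ W := by
      have e1 : Rt * (1 - y) ≤ W * (1 - y) := by
        refine h2.trans ?_
        rw [mul_comm W]
        exact mul_le_mul_of_nonneg_right hc hW
      exact le_of_mul_le_mul_right e1 hpos
    have e2 : min y ((1 - y) / 2) * M0 ≤ y * M0 := mul_le_mul_of_nonneg_right (min_le_left _ _) hM
    nlinarith
  · rcases eq_or_lt_of_le hy1 with hy | hy
    · have e1 : min y ((1 - y) / 2) * M0 ≤ 0 := by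
        have : min y ((1 - y) / 2) ≤ 0 := (min_le_right _ _).trans (by rw [hy]; norm_num)
        exact mul_nonpos_of_nonpos_of_nonneg this hM
      have e2 : 0 ≤ V2 * M0 := mul_nonneg hV hM
      have e3 : 0 ≤ E * M0 := mul_nonneg hE hM
      nlinarith
    · have hy0' : 0 < y := by linarith
      have hpos : 0 < 1 - y := by linarith
      obtain ⟨lam, hlam⟩ : ∃ lam : ℝ, lam = (1 - y) / (2 * y) := ⟨_, rfl⟩
      have hl0 : 0 < lam := by rw [hlam]; positivity
      have hl1 : lam ≤ 1 := by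
        rw [hlam, div_le_one (by positivity)]
        exact hc.le
      have hly : lam * y = (1 - y) / 2 := by
        rw [hlam]
        field_simp
      have hlR : lam * Rt ≤ W := by
        rw [hlam, div_mul_eq_mul_div, div_le_iff₀ (by positivity)]
        nlinarith
      have e1 : lam * (P + W) ≤ lam * (Er + Gd + Rt) := mul_le_mul_of_nonneg_left h1 hl0.le
      have e2 : (1 - lam) * W ≤ (1 - lam) * Er := mul_le_mul_of_nonneg_left h3 (by linarith)
      have e3 : lam * P ≤ Er + lam * Gd := by nlinarith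
      have e4 : lam * (y * M0 - V2 * M0) ≤ lam * P := mul_le_mul_of_nonneg_left hP hl0.le
      have e5 : lam * Gd ≤ lam * (E * M0) := mul_le_mul_of_nonneg_left h4 hl0.le
      have e6 : lam * (E * M0) ≤ 1 * (E * M0) := mul_le_mul_of_nonneg_right hl1 (mul_nonneg hE hM)
      have e7 : lam * (V2 * M0) ≤ 1 * (V2 * M0) := mul_le_mul_of_nonneg_right hl1 (mul_nonneg hV hM)
      have e8 : min y ((1 - y) / 2) * M0 ≤ (1 - y) / 2 * M0 :=
        mul_le_mul_of_nonneg_right (min_le_right _ _) hM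
      have e9 : lam * (y * M0) = (1 - y) / 2 * M0 := by rw [← mul_assoc, hly]
      nlinarith

/-- P8b, from the collision count and the bound for the instances with a good window -/
theorem decision_bound_of [Fintype A] [NeZero d] (B : NBP (Cell d A) A S) (g : Fin d → Equiv.Perm (Fin N)) (x0 : Fin N → A)
    {R T a : ℕ} (ha : 1 ≤ a) (hN : 8 * a ≤ N) (Y : Finset A) (y : ℝ)
    (hy : y = Y.card / Fintype.card A)
    (hC : Nat.card {I : Cell d A → A // ¬ CF g x0 R I} * Fintype.card A ≤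
      ((R + 1) * N) ^ 2 * Nat.card (Cell d A → A))
    (hG : Nat.card {I : Cell d A → A // CF g x0 R I ∧ ∃ l t, Best B g x0 R I B.start l t ∧ Nat.card {c // c ∈ l} ≤ T ∧
        4 * a ≤ (outs g x0 I R l).card ∧ l.length ≤ 2 ^ R} * Fintype.card A ^ a ≤
      R * N.choose a * d ^ a * S ^ 2 * T ^ a * Nat.card (Cell d A → A)) :
    (min y ((1 - y) / 2) - ((R + 1) * N) ^ 2 / Fintype.card A -
        R * N.choose a * (S : ℝ) ^ 2 * (d * T / Fintype.card A) ^ a) * Nat.card (Cell d A → A) ≤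
      Nat.card {I : Cell d A → A // ¬ (((∃ l b, B.Ends I l b) ↔ out g x0 R I ∈ Y) ∧
        ∀ l b, B.Shortest I l b → Nat.card {c // c ∈ l} ≤ T ∧ min S l.length ≤ 2 ^ R)} := by
  classical
  have hk : 0 < Fintype.card A := Fintype.card_pos_iff.mpr ⟨0⟩
  have hkR : (0 : ℝ) < (Fintype.card A : ℝ) := by exact_mod_cast hk
  have hYk : Y.card ≤ Fintype.card A := Finset.card_le_univ Y
  have hroot := root_bound' (R := R) B g x0 hN (by omega) Y
  have hnat := decision_nat (R := R) (T := T) (a := a) B g x0 Y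
  have hwr := wrong_le (R := R) (T := T) B g x0 Y
  have hequi := equi g x0 R (by omega : 1 ≤ N) Y
  have hsplit : Nat.card {I : Cell d A → A // CF g x0 R I} + Nat.card {I : Cell d A → A // ¬ CF g x0 R I} =
      Nat.card (Cell d A → A) := by
    simp only [Nat.card_eq_fintype_card, Fintype.card_subtype]
    rw [← Finset.card_univ, Finset.card_filter_add_card_filter_not]
  refine dec_real y (R * N.choose a * (S : ℝ) ^ 2 * (d * T / Fintype.card A) ^ a)
    (Nat.card {I : Cell d A → A // CF g x0 R I ∧ out g x0 R I ∈ Y})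
    (Nat.card {I : Cell d A → A // out g x0 R I ∉ Y ∧ ∃ l b, B.Ends I l b})
    _
    (Nat.card {I : Cell d A → A // CF g x0 R I ∧ ∃ l t, Best B g x0 R I B.start l t ∧
        Nat.card {c // c ∈ l} ≤ T ∧ 4 * a ≤ (outs g x0 I R l).card ∧ l.length ≤ 2 ^ R})
    (Nat.card {I : Cell d A → A // CF g x0 R I ∧ out g x0 R I ∈ Y ∧
        ∃ l b, B.Ends I l b ∧ (outs g x0 I R l).card < 4 * a})
    (Nat.card (Cell d A → A)) (Nat.card {I : Cell d A → A // CF g x0 R I})
    (((R + 1) * N) ^ 2 / Fintype.card A) ?_ ?_ (by positivity) ?_ ?_ ?_ ?_ (by positivity)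
    (by positivity) ?_ ?_ (by positivity)
  · rw [hy]; positivity
  · rw [hy, div_le_one hkR]; exact_mod_cast hYk
  · exact_mod_cast hnat
  · have h1 : (1 : ℝ) - y = ((Fintype.card A - Y.card : ℕ) : ℝ) / Fintype.card A := by
      rw [hy, Nat.cast_sub hYk]
      field_simp
    rw [h1, hy, mul_div_assoc', mul_div_assoc', div_mul_eq_mul_div]
    exact div_le_div_of_nonneg_right (by exact_mod_cast hroot) hkR.le
  · exact_mod_cast hwr
  · have h1 : ((Nat.card {I : Cell d A → A // CF g x0 R I ∧ ∃ l t, Best B g x0 R I B.start l t ∧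
        Nat.card {c // c ∈ l} ≤ T ∧ 4 * a ≤ (outs g x0 I R l).card ∧ l.length ≤ 2 ^ R} : ℕ) : ℝ) *
        (Fintype.card A : ℝ) ^ a ≤ R * N.choose a * (d : ℝ) ^ a * (S : ℝ) ^ 2 * (T : ℝ) ^ a *
          Nat.card (Cell d A → A) := by exact_mod_cast hG
    rw [div_pow, mul_pow, mul_div_assoc', div_mul_eq_mul_div, le_div_iff₀ (by positivity)]
    refine h1.trans (le_of_eq ?_)
    ring
  · rw [hy, mul_div_assoc', div_le_iff₀ hkR, mul_comm ((Nat.card _ : ℕ) : ℝ) (Fintype.card A : ℝ)]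
    exact_mod_cast hequi
  · have h1 : ((Nat.card {I : Cell d A → A // ¬ CF g x0 R I} : ℕ) : ℝ) ≤
        (((R + 1) * N) ^ 2 / Fintype.card A) * Nat.card (Cell d A → A) := by
      rw [div_mul_eq_mul_div, le_div_iff₀ hkR]
      exact_mod_cast hC
    have h2 : ((Nat.card {I : Cell d A → A // CF g x0 R I} : ℕ) : ℝ) +
        ((Nat.card {I : Cell d A → A // ¬ CF g x0 R I} : ℕ) : ℝ) = (Nat.card (Cell d A → A) : ℕ) := by
      exact_mod_cast hsplit
    linarith

end Pool.Agent.Helper78.NS
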