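import Pool.Agent.Helper78.NS.DecF
import Pool.Agent.Helper74.NS.PushDefs

/-!
# Bounds for nondeterministic pushdown programs, from the simulation
-/

namespace Pool.Agent.Helper78.NS

open Pool.Agent.Helper74.NS

variable {N d : ℕ} {A : Type} [AddCommGroup A] {S : ℕ} {Q Γ : Type}

/-- the cells of a list of queries and of the same list with one more query -/
theorem card_perm_cons {C : Type} {l l' : List C} {c0 : C} (h : l'.Perm (c0 :: l)) {T : ℕ}
    (hT : Nat.card {c // c ∈ l} ≤ T) : Nat.card {c // c ∈ l'} ≤ T + 1 := by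
  classical
  have e : ∀ k : List C, Nat.card {c // c ∈ k} = k.toFinset.card := by
    intro k
    have h1 : Nat.card {c // c ∈ k} = Nat.card {c // c ∈ k.toFinset} :=
      Nat.card_congr (Equiv.subtypeEquivRight (fun c => by simp))
    rw [h1, Nat.card_eq_fintype_card, Fintype.card_coe]
  rw [e] at hT ⊢
  have h1 : l'.toFinset = insert c0 l.toFinset := by
    ext c
    rw [List.mem_toFinset, h.mem_iff, List.mem_cons, Finset.mem_insert, List.mem_toFinset]
  rw [h1]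
  exact (Finset.card_insert_le _ _).trans (Nat.add_le_add_right hT 1)

/-- a computation of `n` steps has at most `n` queries -/
theorem run_length {C : Type} {P : NPBP C A Q Γ} {I : C → A} {x y : Q × List Γ} {l : List C} {n : ℕ}
    (h : P.Run I x l n y) : l.length ≤ n := by
  induction h with
  | nil x => simp
  | ask q q' st c next l n y h1 h2 _ ih => simp only [List.length_cons]; omega
  | push q q' st γ next l n y h1 h2 _ ih => omega
  | pop q q' st γ next l n y h1 h2 _ ih => omega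

/-- the simulation `B` of `P`, with a dummy query `c0`, for computations of at most `L` steps -/
def Simulates {C A Q Γ : Type} {S : ℕ} (P : NPBP C A Q Γ) (c0 : C) (L : ℕ) (B : NBP C A S) : Prop :=
  ∀ I, (∀ l n a, P.Ends I l n a → n ≤ L → ∃ l', B.Ends I (c0 :: l') a ∧ l'.Perm l) ∧
    (∀ l' a, B.Ends I l' a → ∃ l n, P.Ends I l n a ∧ l'.Perm (c0 :: l))

theorem short_of_sim {C : Type} {P : NPBP C A Q Γ} {c0 : C} {L R : ℕ} {B : NBP C A S}
    (hB : Simulates P c0 L B) (hL : L + 1 ≤ 2 ^ R) {I : C → A} (hE : ∃ l n b, P.Ends I l n b ∧ n ≤ L)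
    {l : List C} {b : A} (hs : B.Shortest I l b) : min S l.length ≤ 2 ^ R := by
  obtain ⟨l0, n0, b0, h0, hn0⟩ := hE
  obtain ⟨l1, h1, h2⟩ := (hB I).1 l0 n0 b0 h0 hn0
  have h3 := hs.2 _ _ h1
  obtain ⟨y, h4, _⟩ := h0
  have h5 := run_length h4
  have h6 := h2.length_eq
  simp only [List.length_cons] at h3
  omega

/-- the main bound for pushdown programs -/
theorem push_main_of [Fintype A] [NeZero d] (P : NPBP (Cell d A) A Q Γ) (g : Fin d → Equiv.Perm (Fin N)) (x0 : Fin N → A)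
    {R T L : ℕ} (φ : A → A) (c0 : Cell d A) (B : NBP (Cell d A) A S) (hB : Simulates P c0 L B)
    (hL : L + 1 ≤ 2 ^ R) (X : ℝ)
    (hmain : (Nat.card {I : Cell d A → A // (∃ l b, B.Ends I l b) ∧
        (∀ l b, B.Ends I l b → b = φ (out g x0 R I)) ∧
        ∀ l b, B.Shortest I l b → Nat.card {c // c ∈ l} ≤ T + 1 ∧ min S l.length ≤ 2 ^ R} : ℝ) ≤ X) :
    (Nat.card {I : Cell d A → A // (∃ l n b, P.Ends I l n b ∧ n ≤ L) ∧
      ∀ l n b, P.Ends I l n b → b = φ (out g x0 R I) ∧ Nat.card {c // c ∈ l} ≤ T} : ℝ) ≤ X := by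
  classical
  refine le_trans ?_ hmain
  have h : Nat.card {I : Cell d A → A // (∃ l n b, P.Ends I l n b ∧ n ≤ L) ∧
      ∀ l n b, P.Ends I l n b → b = φ (out g x0 R I) ∧ Nat.card {c // c ∈ l} ≤ T} ≤
      Nat.card {I : Cell d A → A // (∃ l b, B.Ends I l b) ∧
        (∀ l b, B.Ends I l b → b = φ (out g x0 R I)) ∧
        ∀ l b, B.Shortest I l b → Nat.card {c // c ∈ l} ≤ T + 1 ∧ min S l.length ≤ 2 ^ R} := by
    rw [nc, nc]
    apply Finset.card_le_card
    intro I hI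
    rw [Finset.mem_filter] at hI ⊢
    obtain ⟨_, hE, hall⟩ := hI
    refine ⟨Finset.mem_univ _, ?_, ?_, ?_⟩
    · obtain ⟨l0, n0, b0, h0, hn0⟩ := hE
      obtain ⟨l1, h1, _⟩ := (hB I).1 l0 n0 b0 h0 hn0
      exact ⟨_, _, h1⟩
    · intro l b hlb
      obtain ⟨l1, n1, h1, _⟩ := (hB I).2 l b hlb
      exact (hall l1 n1 b h1).1
    · intro l b hs
      refine ⟨?_, short_of_sim hB hL hE hs⟩
      obtain ⟨l1, n1, h1, hp⟩ := (hB I).2 l b hs.1
      exact card_perm_cons hp (hall l1 n1 b h1).2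
  exact_mod_cast h

/-- the decision version for pushdown programs -/
theorem push_dec_of [Fintype A] [NeZero d] (P : NPBP (Cell d A) A Q Γ) (g : Fin d → Equiv.Perm (Fin N)) (x0 : Fin N → A)
    {R T L : ℕ} (Y : Finset A) (c0 : Cell d A) (B : NBP (Cell d A) A S) (hB : Simulates P c0 L B)
    (hL : L + 1 ≤ 2 ^ R) (X : ℝ)
    (hmain : X ≤ Nat.card {I : Cell d A → A // ¬ (((∃ l b, B.Ends I l b) ↔ out g x0 R I ∈ Y) ∧
        ∀ l b, B.Shortest I l b → Nat.card {c // c ∈ l} ≤ T + 1 ∧ min S l.length ≤ 2 ^ R)}) :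
    X ≤ Nat.card {I : Cell d A → A // ¬ ((out g x0 R I ∈ Y → ∃ l n b, P.Ends I l n b ∧ n ≤ L) ∧
      ∀ l n b, P.Ends I l n b → out g x0 R I ∈ Y ∧ Nat.card {c // c ∈ l} ≤ T)} := by
  classical
  refine le_trans hmain ?_
  have h : Nat.card {I : Cell d A → A // ¬ (((∃ l b, B.Ends I l b) ↔ out g x0 R I ∈ Y) ∧
        ∀ l b, B.Shortest I l b → Nat.card {c // c ∈ l} ≤ T + 1 ∧ min S l.length ≤ 2 ^ R)} ≤
      Nat.card {I : Cell d A → A // ¬ ((out g x0 R I ∈ Y → ∃ l n b, P.Ends I l n b ∧ n ≤ L) ∧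
      ∀ l n b, P.Ends I l n b → out g x0 R I ∈ Y ∧ Nat.card {c // c ∈ l} ≤ T)} := by
    rw [nc, nc]
    apply Finset.card_le_card
    intro I hI
    rw [Finset.mem_filter] at hI ⊢
    refine ⟨Finset.mem_univ _, fun hP => hI.2 ?_⟩
    obtain ⟨hin, hall⟩ := hP
    have hE : ∀ l b, B.Ends I l b → out g x0 R I ∈ Y := by
      intro l b hlb
      obtain ⟨l1, n1, h1, _⟩ := (hB I).2 l b hlb
      exact (hall l1 n1 b h1).1
    refine ⟨⟨?_, ?_⟩, ?_⟩
    · rintro ⟨l, b, hlb⟩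
      exact hE l b hlb
    · intro hY
      obtain ⟨l0, n0, b0, h0, hn0⟩ := hin hY
      obtain ⟨l1, h1, _⟩ := (hB I).1 l0 n0 b0 h0 hn0
      exact ⟨_, _, h1⟩
    · intro l b hs
      refine ⟨?_, short_of_sim hB hL (hin (hE l b hs.1)) hs⟩
      obtain ⟨l1, n1, h1, hp⟩ := (hB I).2 l b hs.1
      exact card_perm_cons hp (hall l1 n1 b h1).2
  exact_mod_cast h

/-- monotonicity in the number of states -/
theorem bound_mono (a d N R k T S S' : ℕ) (h : S ≤ S') :
    (R * N.choose a * (S : ℝ) ^ 2 * (d * T / k : ℝ) ^ a) ≤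
      (R * N.choose a * (S' : ℝ) ^ 2 * (d * T / k : ℝ) ^ a) := by
  have h1 : (S : ℝ) ≤ S' := by exact_mod_cast h
  gcongr

end Pool.Agent.Helper78.NS
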