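import Mathlib

/-! Root step of the network problem with shared tables (MP_4e849b_lc). -/

namespace Pool.Agent.Helper78.NS

open Finset

variable {A : Type} [AddCommGroup A] [Fintype A] [DecidableEq A] {d N : ℕ}

/-- values of the network -/
def val (g : Fin d → Equiv.Perm (Fin N)) (x0 : Fin N → A) (I : Fin d × A → A) :
    ℕ → Fin N → A
  | 0 => x0
  | i + 1 => fun u => ∑ s, I (s, val g x0 I i (g s u))

theorem val_zero (g : Fin d → Equiv.Perm (Fin N)) (x0 : Fin N → A) (I : Fin d × A → A) :
    val g x0 I 0 = x0 := rfl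

theorem val_succ (g : Fin d → Equiv.Perm (Fin N)) (x0 : Fin N → A) (I : Fin d × A → A)
    (i : ℕ) (u : Fin N) :
    val g x0 I (i + 1) u = ∑ s, I (s, val g x0 I i (g s u)) := rfl

/-- levels `0 .. i` are unchanged when the content changes only at positions
which are not used by the levels below `i` -/
theorem val_congr (g : Fin d → Equiv.Perm (Fin N)) (x0 : Fin N → A)
    (I J : Fin d × A → A) (m : ℕ)
    (h : ∀ i, i < m → ∀ w, ∀ s, J (s, val g x0 I i w) = I (s, val g x0 I i w)) :
    ∀ i, i ≤ m → val g x0 J i = val g x0 I i := by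
  intro i
  induction i with
  | zero => intro _; rfl
  | succ i ih =>
    intro hi
    funext u
    rw [val_succ, val_succ, ih (by omega)]
    exact Finset.sum_congr rfl (fun s _ => h i (by omega) _ _)

theorem val_upd_low (g : Fin d → Equiv.Perm (Fin N)) (x0 : Fin N → A)
    (I : Fin d × A → A) (m : ℕ) (s0 : Fin d) (v : Fin N) (c : A)
    (hc : ∀ i, i < m → ∀ w, val g x0 I i w ≠ val g x0 I m v) :
    ∀ i, i ≤ m → val g x0 (Function.update I (s0, val g x0 I m v) c) i = val g x0 I i := by
  apply val_congr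
  intro i hi w s
  rw [Function.update_of_ne]
  intro h
  exact hc i hi w (congrArg Prod.snd h)

theorem sum_upd (g : Fin d → Equiv.Perm (Fin N)) (x0 : Fin N → A)
    (I : Fin d × A → A) (m : ℕ) (s0 : Fin d) (v : Fin N) (c : A)
    (hc : ∀ i, i < m → ∀ w, val g x0 I i w ≠ val g x0 I m v)
    (hinj : Function.Injective (val g x0 I m)) :
    ∑ u, val g x0 (Function.update I (s0, val g x0 I m v) c) (m + 1) u
      = ∑ u, val g x0 I (m + 1) u + (c - I (s0, val g x0 I m v)) := by
  have hlow := val_upd_low g x0 I m s0 v c hc m le_rfl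
  have key : ∀ s : Fin d, ∑ u, (Function.update I (s0, val g x0 I m v) c) (s, val g x0 I m (g s u))
      = ∑ u, I (s, val g x0 I m (g s u)) +
        (if s = s0 then c - I (s0, val g x0 I m v) else 0) := by
    intro s
    rw [Equiv.sum_comp (g s) (fun w => (Function.update I (s0, val g x0 I m v) c)
      (s, val g x0 I m w)), Equiv.sum_comp (g s) (fun w => I (s, val g x0 I m w))]
    by_cases hs : s = s0
    · subst hs
      rw [if_pos rfl, ← Finset.add_sum_erase univ _ (Finset.mem_univ v),
        ← Finset.add_sum_erase univ (fun w => I (s, val g x0 I m w)) (Finset.mem_univ v)]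
      rw [Function.update_self]
      have : ∑ x ∈ univ.erase v, (Function.update I (s, val g x0 I m v) c) (s, val g x0 I m x)
          = ∑ x ∈ univ.erase v, I (s, val g x0 I m x) := by
        apply Finset.sum_congr rfl
        intro x hx
        rw [Function.update_of_ne]
        intro h
        exact (Finset.ne_of_mem_erase hx) (hinj (congrArg Prod.snd h))
      rw [this]
      abel
    · rw [if_neg hs, add_zero]
      apply Finset.sum_congr rfl
      intro x _
      rw [Function.update_of_ne]
      intro h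
      exact hs (congrArg Prod.fst h)
  calc ∑ u, val g x0 (Function.update I (s0, val g x0 I m v) c) (m + 1) u
      = ∑ u, ∑ s, (Function.update I (s0, val g x0 I m v) c) (s, val g x0 I m (g s u)) := by
        apply Finset.sum_congr rfl
        intro u _
        rw [val_succ, hlow]
    _ = ∑ s, ∑ u, (Function.update I (s0, val g x0 I m v) c) (s, val g x0 I m (g s u)) :=
        Finset.sum_comm
    _ = ∑ s, (∑ u, I (s, val g x0 I m (g s u)) +
        (if s = s0 then c - I (s0, val g x0 I m v) else 0)) :=
        Finset.sum_congr rfl (fun s _ => key s)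
    _ = ∑ s, ∑ u, I (s, val g x0 I m (g s u)) + (c - I (s0, val g x0 I m v)) := by
        rw [Finset.sum_add_distrib, Finset.sum_ite_eq' univ s0, if_pos (Finset.mem_univ _)]
    _ = ∑ u, ∑ s, I (s, val g x0 I m (g s u)) + (c - I (s0, val g x0 I m v)) := by
        rw [Finset.sum_comm]
    _ = ∑ u, val g x0 I (m + 1) u + (c - I (s0, val g x0 I m v)) := rfl

/-- the values of the levels `0 .. m` are pairwise different -/
def CF (g : Fin d → Equiv.Perm (Fin N)) (x0 : Fin N → A) (I : Fin d × A → A) (m : ℕ) : Prop :=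
  ∀ i, i ≤ m → ∀ j, j ≤ m → ∀ u v, val g x0 I i u = val g x0 I j v → i = j ∧ u = v

theorem CF.low {g : Fin d → Equiv.Perm (Fin N)} {x0 : Fin N → A} {I : Fin d × A → A} {m : ℕ}
    (h : CF g x0 I m) (v : Fin N) : ∀ i, i < m → ∀ w, val g x0 I i w ≠ val g x0 I m v := by
  intro i hi w e
  have := (h i hi.le m le_rfl w v e).1
  omega

theorem CF.inj {g : Fin d → Equiv.Perm (Fin N)} {x0 : Fin N → A} {I : Fin d × A → A} {m : ℕ}
    (h : CF g x0 I m) : Function.Injective (val g x0 I m) := by
  intro u v e
  exact (h m le_rfl m le_rfl u v e).2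

/-- one missing cell -/
theorem root_fib (g : Fin d → Equiv.Perm (Fin N)) (x0 : Fin N → A) (m : ℕ)
    (s0 : Fin d) (v : Fin N) (phi : A → A) (p : ℕ)
    (hp : ∀ b, (univ.filter (fun a => phi a = b)).card ≤ p)
    (B : Finset (Fin d × A → A)) (hCF : ∀ I ∈ B, CF g x0 I m)
    (hB : ∀ I ∈ B, ∀ I' ∈ B, (∀ c, c ≠ (s0, val g x0 I m v) → I' c = I c) →
      phi (∑ u, val g x0 I' (m + 1) u) = phi (∑ u, val g x0 I (m + 1) u)) :
    Fintype.card A * B.card ≤ p * Fintype.card (Fin d × A → A) := by
  classical
  have h1 : (B ×ˢ (univ : Finset A)).card ≤ p * ((B ×ˢ (univ : Finset A)).image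
      (fun x => Function.update x.1 (s0, val g x0 x.1 m v) x.2)).card := by
    apply Finset.card_le_mul_card_image
    intro J _
    rcases (((B ×ˢ (univ : Finset A)).filter
      (fun x => Function.update x.1 (s0, val g x0 x.1 m v) x.2 = J))).eq_empty_or_nonempty with
      he | ⟨x0', hx0⟩
    · rw [he]; simp
    · rw [Finset.mem_filter, Finset.mem_product] at hx0
      obtain ⟨⟨hx0B, _⟩, hx0J⟩ := hx0
      -- facts on members of the fibre
      have fact : ∀ x : (Fin d × A → A) × A, x.1 ∈ B →
          Function.update x.1 (s0, val g x0 x.1 m v) x.2 = J →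
          (∀ i, i ≤ m → val g x0 J i = val g x0 x.1 i) ∧ x.2 = J (s0, val g x0 J m v) := by
        intro x hx hJ
        have hl : ∀ i, i ≤ m → val g x0 J i = val g x0 x.1 i := by
          intro i hi
          rw [← hJ]
          exact val_upd_low g x0 x.1 m s0 v x.2 ((hCF _ hx).low v) i hi
        refine ⟨hl, ?_⟩
        rw [hl m le_rfl, ← hJ, Function.update_self]
      obtain ⟨h0l, h0c⟩ := fact x0' hx0B hx0J
      refine le_trans ?_ (hp (phi (∑ u, val g x0 x0'.1 (m + 1) u)))
      have hsame : ∀ x : (Fin d × A → A) × A, x.1 ∈ B →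
          Function.update x.1 (s0, val g x0 x.1 m v) x.2 = J →
          ∀ c, c ≠ (s0, val g x0 J m v) → x.1 c = J c := by
        intro x hx hJ c hc
        rw [← hJ, Function.update_of_ne]
        rw [← (fact x hx hJ).1 m le_rfl]
        exact hc
      apply Finset.card_le_card_of_injOn (fun x => ∑ u, val g x0 x.1 (m + 1) u)
      · intro x hx
        rw [Finset.mem_coe, Finset.mem_filter, Finset.mem_product] at hx
        obtain ⟨⟨hxB, _⟩, hxJ⟩ := hx
        rw [Finset.mem_coe, Finset.mem_filter]
        refine ⟨Finset.mem_univ _, ?_⟩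
        apply hB _ hx0B _ hxB
        intro c hc
        rw [← h0l m le_rfl] at hc
        rw [hsame x hxB hxJ c hc, hsame x0' hx0B hx0J c hc]
      · intro x hx y hy hxy
        rw [Finset.mem_coe, Finset.mem_filter, Finset.mem_product] at hx hy
        obtain ⟨⟨hxB, _⟩, hxJ⟩ := hx
        obtain ⟨⟨hyB, _⟩, hyJ⟩ := hy
        obtain ⟨hxl, hxc⟩ := fact x hxB hxJ
        obtain ⟨hyl, hyc⟩ := fact y hyB hyJ
        have hxs := sum_upd g x0 x.1 m s0 v x.2 ((hCF _ hxB).low v) (hCF _ hxB).inj
        have hys := sum_upd g x0 y.1 m s0 v y.2 ((hCF _ hyB).low v) (hCF _ hyB).inj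
        rw [hxJ] at hxs
        rw [hyJ] at hys
        have hxy' : ∑ u, val g x0 x.1 (m + 1) u = ∑ u, val g x0 y.1 (m + 1) u := hxy
        have e1 : x.1 (s0, val g x0 J m v) = y.1 (s0, val g x0 J m v) := by
          rw [hxl m le_rfl] at hxc ⊢
          have e2 : val g x0 x.1 m = val g x0 y.1 m := by
            rw [← hxl m le_rfl, ← hyl m le_rfl]
          rw [hxs, hxy'] at hys
          have e3 := add_left_cancel hys
          rw [hxc] at e3
          rw [hyc, hyl m le_rfl, ← e2] at e3
          have e4 := sub_right_injective e3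
          exact e4
        refine Prod.ext ?_ ?_
        · funext c
          by_cases hc : c = (s0, val g x0 J m v)
          · rw [hc]; exact e1
          · rw [hsame x hxB hxJ c hc, hsame y hyB hyJ c hc]
        · rw [hxc, hyc]
  rw [Finset.card_product, Finset.card_univ] at h1
  rw [mul_comm]
  refine le_trans h1 (Nat.mul_le_mul_left _ ?_)
  exact Finset.card_le_univ _

/-- many missing cells -/
theorem root_half (g : Fin d → Equiv.Perm (Fin N)) (x0 : Fin N → A) (m : ℕ)
    (s0 : Fin d) (phi : A → A) (p : ℕ)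
    (hp : ∀ b, (univ.filter (fun a => phi a = b)).card ≤ p)
    (B : Finset (Fin d × A → A)) (hCF : ∀ I ∈ B, CF g x0 I m)
    (M : (Fin d × A → A) → Finset (Fin N)) (q : ℕ) (hM : ∀ I ∈ B, q ≤ (M I).card)
    (hB : ∀ I ∈ B, ∀ I' ∈ B, ∀ v ∈ M I, v ∈ M I' → (∀ c, c ≠ (s0, val g x0 I m v) → I' c = I c) →
      phi (∑ u, val g x0 I' (m + 1) u) = phi (∑ u, val g x0 I (m + 1) u)) :
    Fintype.card A * (q * B.card) ≤ N * (p * Fintype.card (Fin d × A → A)) := by
  classical
  have h1 : ∀ v : Fin N, Fintype.card A * (B.filter (fun I => v ∈ M I)).card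
      ≤ p * Fintype.card (Fin d × A → A) := by
    intro v
    apply root_fib g x0 m s0 v phi p hp
    · intro I hI
      exact hCF I (Finset.mem_filter.mp hI).1
    · intro I hI I' hI' h
      rw [Finset.mem_filter] at hI hI'
      exact hB I hI.1 I' hI'.1 v hI.2 hI'.2 h
  have h2 : q * B.card ≤ ∑ v : Fin N, (B.filter (fun I => v ∈ M I)).card := by
    have : ∑ v : Fin N, (B.filter (fun I => v ∈ M I)).card = ∑ I ∈ B, (M I).card := by
      simp_rw [Finset.card_filter]
      rw [Finset.sum_comm]
      apply Finset.sum_congr rfl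
      intro I _
      rw [← Finset.card_filter]
      simp
    rw [this, mul_comm, ← smul_eq_mul]
    exact Finset.card_nsmul_le_sum B _ q hM
  calc Fintype.card A * (q * B.card)
      ≤ Fintype.card A * ∑ v : Fin N, (B.filter (fun I => v ∈ M I)).card :=
        Nat.mul_le_mul_left _ h2
    _ = ∑ v : Fin N, Fintype.card A * (B.filter (fun I => v ∈ M I)).card := Finset.mul_sum _ _ _
    _ ≤ ∑ _v : Fin N, p * Fintype.card (Fin d × A → A) := Finset.sum_le_sum (fun v _ => h1 v)
    _ = N * (p * Fintype.card (Fin d × A → A)) := by simp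

end Pool.Agent.Helper78.NS
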